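import Pool.Agent.V1119.CG.PAS
import Pool.Agent.H122R2.N6.FinP0
import Pool.Agent.TH773.ST.Hyp

/-! Pairs of vertices with codegree between `n/3` and `2n/3`. -/

set_option autoImplicit false
set_option maxRecDepth 100000
set_option maxHeartbeats 4000000
open Finset
open scoped Classical

namespace Pool.Agent.V1119.CG
open Pool.Agent.H122R2.N6 Pool.Agent.TH773.ST Pool.Agent.TH773

theorem wA_le (d : ℝ) (h1 : d ≤ 1) : d - ph 2 (-2) (3 / 8) d ≤ 1 / 34 := by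
  unfold ph
  have h2 : 0 ≤ (1 - d) * (d - 1 / 2 + 7 / 250) ^ 2 := mul_nonneg (by linarith) (sq_nonneg _)
  nlinarith [sq_nonneg ((d - 1 / 3) * (d - 2 / 3)), sq_nonneg (d - 1 / 2), sq_nonneg (d - 1 / 2 + 1 / 200)]

theorem w0_le (d : ℝ) (h1 : d ≤ 1) :
    d - ph (149 / 250) (-87 / 500) (3 / 8) d ≤ 1 / 70 := by
  unfold ph
  have h2 : 0 ≤ (1 - d) * (d - 1 / 2) ^ 2 := mul_nonneg (by linarith) (sq_nonneg _)
  nlinarith [sq_nonneg ((d - 1 / 3) * (d - 2 / 3)), sq_nonneg (d - 1 / 2 + 1 / 200)]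

theorem w_eps (u v k c : ℝ) (hk : 0 ≤ k) (hu : 0 ≤ u + v) (hu0 : 0 ≤ u) (hc : 0 ≤ c)
    (hA : ∀ d : ℝ, 1 / 3 ≤ d → d ≤ 2 / 3 → (2 / 3 - d) * (u + v * d) ≤ c)
    (hB : ∀ d : ℝ, 1 / 3 ≤ d → d ≤ 2 / 3 → (d - 1 / 3) * (u + v * d) ≤ c)
    (d ε : ℝ) (h0 : 0 ≤ d) (h1 : d ≤ 1) (hε : 0 ≤ ε) (h : d ≤ 1 / 3 + ε ∨ 2 / 3 - ε ≤ d) :
    d - ph u v k d ≤ c * ε := by
  have hp : 0 ≤ u + v * d := by nlinarith
  have e : d - ph u v k d = (d - 1 / 3) * (2 / 3 - d) * (u + v * d)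
      - k * ((d - 1 / 3) * (d - 2 / 3)) ^ 2 := by unfold ph; ring
  have hq : 0 ≤ k * ((d - 1 / 3) * (d - 2 / 3)) ^ 2 := by positivity
  rw [e]
  have hcε : 0 ≤ c * ε := mul_nonneg hc hε
  rcases le_or_gt d (1 / 3) with ha | ha
  · have : (d - 1 / 3) * (2 / 3 - d) * (u + v * d) ≤ 0 :=
      mul_nonpos_of_nonpos_of_nonneg (mul_nonpos_of_nonpos_of_nonneg (by linarith) (by linarith)) hp
    linarith
  rcases le_or_gt (2 / 3) d with hb | hb
  · have : (d - 1 / 3) * (2 / 3 - d) * (u + v * d) ≤ 0 :=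
      mul_nonpos_of_nonpos_of_nonneg (mul_nonpos_of_nonneg_of_nonpos (by linarith) (by linarith)) hp
    linarith
  rcases h with h | h
  · have h3 := hA d ha.le hb.le
    have h4 : 0 ≤ (2 / 3 - d) * (u + v * d) := mul_nonneg (by linarith) hp
    have h5 : (d - 1 / 3) * ((2 / 3 - d) * (u + v * d)) ≤ ε * c :=
      mul_le_mul (by linarith) h3 h4 hε
    nlinarith
  · have h3 := hB d ha.le hb.le
    have h4 : 0 ≤ (d - 1 / 3) * (u + v * d) := mul_nonneg (by linarith) hp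
    have h5 : (2 / 3 - d) * ((d - 1 / 3) * (u + v * d)) ≤ ε * c :=
      mul_le_mul (by linarith) h3 h4 hε
    nlinarith

theorem wA_eps (d ε : ℝ) (h0 : 0 ≤ d) (h1 : d ≤ 1) (hε : 0 ≤ ε) (h : d ≤ 1 / 3 + ε ∨ 2 / 3 - ε ≤ d) :
    d - ph 2 (-2) (3 / 8) d ≤ 4 / 9 * ε := by
  refine w_eps 2 (-2) (3 / 8) (4 / 9) (by norm_num) (by norm_num) (by norm_num) (by norm_num)
    ?_ ?_ d ε h0 h1 hε h
  · intro d h1 h2
    nlinarith
  · intro d h1 h2
    nlinarith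

theorem w0_eps (d ε : ℝ) (h0 : 0 ≤ d) (h1 : d ≤ 1) (hε : 0 ≤ ε) (h : d ≤ 1 / 3 + ε ∨ 2 / 3 - ε ≤ d) :
    d - ph (149 / 250) (-87 / 500) (3 / 8) d ≤ 9 / 50 * ε := by
  refine w_eps (149 / 250) (-87 / 500) (3 / 8) (9 / 50) (by norm_num) (by norm_num) (by norm_num) (by norm_num)
    ?_ ?_ d ε h0 h1 hε h
  · intro d h1 h2
    nlinarith
  · intro d h1 h2
    nlinarith

section
variable {n : ℕ}

/-- the number of vertices `z` such that `{x, y, z}` is an edge -/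
noncomputable def cod (H : Finset (Finset (Fin n))) (x y : Fin n) : ℕ :=
  (univ.filter fun z => ({x, y, z} : Finset (Fin n)) ∈ H).card

/-- the number of ordered pairs with codegree in the gap -/
noncomputable def gap (H : Finset (Finset (Fin n))) (ε : ℝ) : ℕ :=
  ((univ : Finset (Fin n × Fin n)).filter fun p =>
    (1 / 3 + ε) * (n : ℝ) < (cod H p.1 p.2 : ℝ) ∧ (cod H p.1 p.2 : ℝ) < (2 / 3 - ε) * (n : ℝ)).card

theorem sum_tri (H : Finset (Finset (Fin n))) (x y : Fin n) : ∑ z, tri H x y z = cod H x y := by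
  unfold cod
  rw [card_filter]
  refine sum_congr rfl fun z _ => ?_
  rw [tri_ite]

theorem dn_cod (H : Finset (Finset (Fin n))) (x y : Fin n) :
    dn (tri H) x y = (cod H x y : ℝ) / (n : ℝ) := by
  unfold dn
  rw [Fintype.card_fin, ← sum_tri]
  push_cast
  rfl

theorem cod_le (H : Finset (Finset (Fin n))) (x y : Fin n) : cod H x y ≤ n := by
  unfold cod
  refine (card_le_univ _).trans ?_
  rw [Fintype.card_fin]

theorem gap_sum (H : Finset (Finset (Fin n))) (ε c e : ℝ) (he : 0 ≤ e) (F : ℝ → ℝ) (hn : 0 < n)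
    (h1 : ∀ d : ℝ, 0 ≤ d → d ≤ 1 → F d ≤ c) 
    (h2 : ∀ d : ℝ, 0 ≤ d → d ≤ 1 → (d ≤ 1 / 3 + ε ∨ 2 / 3 - ε ≤ d) → F d ≤ e) :
    ∑ x, ∑ y, F (dn (tri H) x y) ≤ c * (gap H ε : ℝ) + e * (n : ℝ) ^ 2 := by
  have hn' : (0 : ℝ) < (n : ℝ) := by exact_mod_cast hn
  have d0 : ∀ x y, 0 ≤ dn (tri H) x y := fun x y => by rw [dn_cod]; positivity
  have d1 : ∀ x y, dn (tri H) x y ≤ 1 := fun x y => by
    rw [dn_cod, div_le_one hn']
    exact_mod_cast cod_le H x y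
  have e1 : ∀ x y, F (dn (tri H) x y) ≤ (if ((1 / 3 + ε) * (n : ℝ) < (cod H x y : ℝ) ∧
      (cod H x y : ℝ) < (2 / 3 - ε) * (n : ℝ)) then c else 0) + e := by
    intro x y
    split_ifs with hg
    · have := h1 _ (d0 x y) (d1 x y)
      linarith
    · rw [zero_add]
      refine h2 _ (d0 x y) (d1 x y) ?_
      by_contra hh
      push Not at hh
      refine hg ⟨?_, ?_⟩
      · have := hh.1
        rw [dn_cod, lt_div_iff₀ hn'] at this
        exact this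
      · have := hh.2
        rw [dn_cod, div_lt_iff₀ hn'] at this
        exact this
  calc ∑ x, ∑ y, F (dn (tri H) x y) ≤ ∑ x : Fin n, ∑ y : Fin n, ((if ((1 / 3 + ε) * (n : ℝ) < (cod H x y : ℝ) ∧
      (cod H x y : ℝ) < (2 / 3 - ε) * (n : ℝ)) then c else 0) + e) :=
        sum_le_sum fun x _ => sum_le_sum fun y _ => e1 x y
    _ = c * (gap H ε : ℝ) + e * (n : ℝ) ^ 2 := by
        simp only [sum_add_distrib]
        rw [sum_const, sum_const, card_univ, Fintype.card_fin, nsmul_eq_mul, nsmul_eq_mul]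
        rw [← Fintype.sum_prod_type' (f := fun x y => if ((1 / 3 + ε) * (n : ℝ) < (cod H x y : ℝ) ∧
      (cod H x y : ℝ) < (2 / 3 - ε) * (n : ℝ)) then c else 0), ← sum_filter, sum_const, nsmul_eq_mul]
        unfold gap
        ring

/-- the sum of the codegree densities -/
theorem sum_dn (H : Finset (Finset (Fin n))) (hn : 0 < n) :
    (n : ℝ) * ∑ x, ∑ y, dn (tri H) x y = ((∑ a, ∑ b, ∑ c, tri H a b c : ℕ) : ℝ) := by
  have hn' : (n : ℝ) ≠ 0 := by positivity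
  push_cast
  rw [mul_sum]
  refine sum_congr rfl fun x _ => ?_
  rw [mul_sum]
  refine sum_congr rfl fun y _ => ?_
  unfold dn
  rw [Fintype.card_fin, mul_div_cancel₀ _ hn']

/-- the number of edges and the codegrees in the gap -/
theorem density_gap (H : Finset (Finset (Fin n))) (h3 : ∀ e ∈ H, e.card = 3)
    (hK : Turan34.K43Free H) (ε : ℝ) (hε : 0 ≤ ε) :
    (H.card : ℝ) ≤ 5 / 54 * (n : ℝ) ^ 3 + 1 / 420 * ((n : ℝ) * gap H ε) + 3 / 100 * ε * (n : ℝ) ^ 3 := by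
  have h6 := six_card_le h3
  rcases Nat.eq_zero_or_pos n with hn | hn
  · subst hn
    have : H.card = 0 := by
      have h7 : ∑ a, ∑ b, ∑ c, tri H a b c = 0 := by
        rw [univ_eq_empty, sum_empty]
      omega
    rw [this]
    simp
  have hn' : (0 : ℝ) < (n : ℝ) := by exact_mod_cast hn
  have hP := P0.avg (tri_sy H) (tri_noK4 h3 hK) (by rw [Fintype.card_fin]; exact hn)
  rw [Fintype.card_fin] at hP
  have hG := gap_sum H ε (1 / 70) (9 / 50 * ε) (by positivity)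
    (fun d => d - ph (149 / 250) (-87 / 500) (3 / 8) d) hn (fun d _ h1 => w0_le d h1)
    (fun d h0 h1 h => w0_eps d ε h0 h1 hε h)
  simp only [sum_sub_distrib] at hG
  have hS := sum_dn H hn
  have h7 : (6 : ℝ) * H.card ≤ ((∑ a, ∑ b, ∑ c, tri H a b c : ℕ) : ℝ) := by exact_mod_cast h6
  rw [← hS] at h7
  have h8 : ∑ x, ∑ y, dn (tri H) x y ≤ 5 / 9 * (n : ℝ) ^ 2 + (1 / 70 * (gap H ε : ℝ)
      + 9 / 50 * ε * (n : ℝ) ^ 2) := by linarith
  have h9 := mul_le_mul_of_nonneg_left h8 hn'.le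
  nlinarith

/-- stability, with the codegrees in the gap -/
theorem stability_gap (H : Finset (Finset (Fin n))) (h3 : ∀ e ∈ H, e.card = 3)
    (hK : Turan34.K43Free H) : ∃ g : Fin n → Fin 3, ∀ ε : ℝ, 0 ≤ ε →
    ((symmDiff H (Turan34.turan g)).card : ℝ) ≤ 232243200 * ((5 / 54 * (n : ℝ) ^ 3 - H.card)
      + 1 / 204 * ((n : ℝ) * gap H ε) + 2 / 27 * ε * (n : ℝ) ^ 3) := by
  have hE := tri_sy H
  have hN := tri_noK4 h3 hK
  obtain ⟨g, hg⟩ := stabG hE hN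
  refine ⟨g, fun ε hε => ?_⟩
  have h6 := six_card_le h3
  have hsd := six_symm_le h3 g
  rw [Fintype.card_fin] at hg
  rcases Nat.eq_zero_or_pos n with hn | hn
  · subst hn
    have h7 : ∑ a, ∑ b, ∑ c, tri H a b c = 0 := by
      rw [univ_eq_empty, sum_empty]
    have : H.card = 0 := by omega
    have hb : bad (tri H) g ≤ 0 := by
      refine (bad_le (E := tri H) g).trans ?_
      rw [Fintype.card_fin]; norm_num
    have : (symmDiff H (Turan34.turan g)).card = 0 := by omega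
    rw [this]
    simp_all
  have hn' : (0 : ℝ) < (n : ℝ) := by exact_mod_cast hn
  have hP := PA.cert hE hN (by rw [Fintype.card_fin]; exact hn)
  rw [Fintype.card_fin] at hP
  have hG := gap_sum H ε (1 / 34) (4 / 9 * ε) (by positivity)
    (fun d => d - ph 2 (-2) (3 / 8) d) hn (fun d _ h1 => wA_le d h1)
    (fun d h0 h1 h => wA_eps d ε h0 h1 hε h)
  simp only [sum_sub_distrib] at hG
  have hS := sum_dn H hn
  have h7 : (6 : ℝ) * H.card ≤ ((∑ a, ∑ b, ∑ c, tri H a b c : ℕ) : ℝ) := by exact_mod_cast h6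
  have hsd' : (6 : ℝ) * ((symmDiff H (Turan34.turan g)).card : ℝ) ≤ (bad (tri H) g : ℝ) := by
    exact_mod_cast hsd
  have hbn : (bad (tri H) g : ℝ) ≤ (n : ℝ) ^ 3 := by
    have := bad_le (E := tri H) g
    rw [Fintype.card_fin] at this
    exact_mod_cast this
  set S : ℝ := ((∑ a, ∑ b, ∑ c, tri H a b c : ℕ) : ℝ) with hSd
  set D : ℝ := ∑ x, ∑ y, dn (tri H) x y with hD
  set Φ : ℝ := ∑ a, ∑ b, ph 2 (-2) (3 / 8) (dn (tri H) a b) with hΦ
  have hgap0 : (0 : ℝ) ≤ (gap H ε : ℝ) := by positivity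
  have hP' : 1800 * ((n : ℝ) ^ 4 * Φ) + 5 * (NT (tri H) : ℝ) ≤ 1000 * (n : ℝ) ^ 6 := by
    push_cast at hP
    linarith
  have h10 : D ≤ Φ + (1 / 34 * (gap H ε : ℝ) + 4 / 9 * ε * (n : ℝ) ^ 2) := by linarith
  have h11 : (n : ℝ) ^ 3 * S ≤ (n : ℝ) ^ 4 * (Φ + (1 / 34 * (gap H ε : ℝ) + 4 / 9 * ε * (n : ℝ) ^ 2)) := by
    rw [← hS]
    calc (n : ℝ) ^ 3 * ((n : ℝ) * D) = (n : ℝ) ^ 4 * D := by ring
      _ ≤ _ := mul_le_mul_of_nonneg_left h10 (by positivity)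
  have key : (n : ℝ) ^ 3 * (bad (tri H) g : ℝ) ≤ 129024 * (1000 * (n : ℝ) ^ 6 - 1800 * ((n : ℝ) ^ 3 * S)
      + 1800 * ((n : ℝ) ^ 4 * (1 / 34 * (gap H ε : ℝ) + 4 / 9 * ε * (n : ℝ) ^ 2))) := by
    have hz : 0 ≤ (n : ℝ) ^ 4 * (1 / 34 * (gap H ε : ℝ) + 4 / 9 * ε * (n : ℝ) ^ 2) := by positivity
    rcases hg with hg | hg
    · have hg' : 1000 * ((n : ℝ) ^ 3 * S) ≤ 550 * (n : ℝ) ^ 6 := by
        rw [hSd]
        exact_mod_cast hg
      have h12 : (n : ℝ) ^ 3 * (bad (tri H) g : ℝ) ≤ (n : ℝ) ^ 6 := by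
        calc (n : ℝ) ^ 3 * (bad (tri H) g : ℝ) ≤ (n : ℝ) ^ 3 * (n : ℝ) ^ 3 :=
              mul_le_mul_of_nonneg_left hbn (by positivity)
          _ = _ := by ring
      have h13 : (0 : ℝ) ≤ (n : ℝ) ^ 6 := by positivity
      linarith
    · have hg' : (n : ℝ) ^ 3 * (bad (tri H) g : ℝ) ≤ 645120 * (NT (tri H) : ℝ) := by exact_mod_cast hg
      have e : (n : ℝ) ^ 4 * (Φ + (1 / 34 * (gap H ε : ℝ) + 4 / 9 * ε * (n : ℝ) ^ 2)) =
        (n : ℝ) ^ 4 * Φ + (n : ℝ) ^ 4 * (1 / 34 * (gap H ε : ℝ) + 4 / 9 * ε * (n : ℝ) ^ 2) := by ring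
      rw [e] at h11
      linarith
  have h14 : (n : ℝ) ^ 3 * (6 * ((symmDiff H (Turan34.turan g)).card : ℝ)) ≤
      (n : ℝ) ^ 3 * (129024 * (1000 * (n : ℝ) ^ 3 - 1800 * (6 * H.card)
      + 1800 * ((n : ℝ) * (1 / 34 * (gap H ε : ℝ) + 4 / 9 * ε * (n : ℝ) ^ 2)))) := by
    have h15 := mul_le_mul_of_nonneg_left hsd' (by positivity : (0 : ℝ) ≤ (n : ℝ) ^ 3)
    have h16 := mul_le_mul_of_nonneg_left h7 (by positivity : (0 : ℝ) ≤ (n : ℝ) ^ 3)
    have e2 : (n : ℝ) ^ 3 * (129024 * (1000 * (n : ℝ) ^ 3 - 1800 * (6 * H.card)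
      + 1800 * ((n : ℝ) * (1 / 34 * (gap H ε : ℝ) + 4 / 9 * ε * (n : ℝ) ^ 2)))) =
      129024 * (1000 * (n : ℝ) ^ 6 - 1800 * ((n : ℝ) ^ 3 * (6 * H.card))
      + 1800 * ((n : ℝ) ^ 4 * (1 / 34 * (gap H ε : ℝ) + 4 / 9 * ε * (n : ℝ) ^ 2))) := by ring
    rw [e2]
    linarith
  have h17 := le_of_mul_le_mul_left h14 (by positivity)
  linarith

end
end Pool.Agent.V1119.CG
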