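import Pool.Agent.V1119.CG.Slk
import Pool.Agent.V1119.CG.PAChk
import Pool.Agent.H122R2.N6.FinPA

/-! The certificate `PA` with slack. -/

set_option autoImplicit false
set_option maxRecDepth 100000
set_option maxHeartbeats 4000000
open Finset

namespace Pool.Agent.V1119.CG.PA
open Pool.Agent.H122R2.N6 Pool.Agent.H122R2.N6.PA Pool.Agent.TH773.ST Pool.Agent.H37R3.CopL

theorem hcS (b012 b013 b023 b123 b014 b024 b124 b034 b134 b234 : ℕ) (hb012 : Bt b012) (hb013 : Bt b013) (hb023 : Bt b023) (hb123 : Bt b123) (hb014 : Bt b014) (hb024 : Bt b024) (hb124 : Bt b124) (hb034 : Bt b034) (hb134 : Bt b134) (hb234 : Bt b234) (ht : tg b012 b013 b023 b123 b014 b024 b124 b034 b134 b234 = 4) :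
    chkS q4 q2 CST 0 197586388449755136 LT [] b012 b013 b023 b123 b014 b024 b124 b034 b134 b234 = true := by
  have h : CG.PA.part b012 b013 = true := by
    rcases hb012 with rfl | rfl <;> rcases hb013 with rfl | rfl
    exacts [CG.PA.part00, CG.PA.part01, CG.PA.part10, CG.PA.part11]
  have h2 := (B2_true (B2_true (B2_true (B2_true (B2_true (B2_true (B2_true (B2_true h hb023) hb123) hb014) hb024) hb124) hb034) hb134) hb234)
  refine or_false_left h2 ?_
  rw [ht]
  rfl

theorem cert {V : Type} [Fintype V] {E : V → V → V → ℕ} (hE : Sy E) (hK : NoK4 E)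
    (hn : 0 < Fintype.card V) :
    (71131099841911848960 : ℝ) * ((Fintype.card V : ℝ) ^ 4 * ∑ a, ∑ b, ph 2 (-2) (3 / 8) (dn E a b)) +
      ((197586388449755136 * NT E : ℕ) : ℝ) ≤
      71131099841911848960 * (5 / 9 * (Fintype.card V : ℝ) ^ 6) := by
  have hb := slack_obj (E := E) hE hK (K := 128) (K2 := 22) (C := CST) (s := 197586388449755136)
    (B := 524288) (O4 := 9223372036854775808) (O2 := 2305843009213693952)
    (t := fun k => (t2 k : ℤ)) (q4 := q4) (q2 := q2)
    (W := fun c k => w4 (rho c) k) (l := fun c i k => l4 (rho c) (pc c i) k) (W2 := w2) (l2 := l2)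
    (LT := LT) (TbT := TbT) (by decide +kernel) hq4 hq2 cs4 cs2 hcS isoT
  have hC : ((CST : ℕ) : ℤ) = 281630793657388892160 := rfl
  rw [hC] at hb
  refine avg_slack hE (fun k => (t2 k : ℤ)) (731801438702796800) (-636667251671433216) (1196495352279072768) (-1086725136473653248) (592759165349265408) 39517277689951027200
    (197586388449755136 * NT E) ?_ ?_ ?_ ?_ ?_ ?_ (2) (-2) (3 / 8) 71131099841911848960 ?_ (by norm_num) hn
  · show ((t2 0 : ℕ) : ℤ) = _
    rw [t2_0]; norm_num
  · show ((t2 1 : ℕ) : ℤ) = _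
    rw [t2_1]; norm_num
  · show ((t2 2 : ℕ) : ℤ) = _
    rw [t2_2]; norm_num
  · show ((t2 3 : ℕ) : ℤ) = _
    rw [t2_3]; norm_num
  · show ((t2 4 : ℕ) : ℤ) = _
    rw [t2_4]; norm_num
  · push_cast at hb ⊢
    linarith
  · intro d
    unfold ph
    push_cast
    ring

end Pool.Agent.V1119.CG.PA
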