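import Pool.Agent.TH773.ST.Avg
import Pool.Agent.H122R2.N6.Bound2

/-! The sum inequality with slack for a functional of the codegrees. -/

set_option autoImplicit false
set_option maxRecDepth 100000
set_option maxHeartbeats 4000000
open Finset
open scoped Classical

namespace Pool.Agent.V1119.CG
open Pool.Agent.H122R2.N6 Pool.Agent.H37R3.Pen Pool.Agent.H37R3.Cop Pool.Agent.H37R3.CopL
open Pool.Agent.TH773.ST

section
variable {V : Type} {E : V → V → V → ℕ}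

/-- the sum inequality with slack, for a general objective -/
theorem slack_obj [Fintype V] (hE : Sy E) (hK : NoK4 E) {K K2 C s : ℕ} {B O4 O2 : ℤ} {t : ℕ → ℤ}
    {q4 : ℕ → ℕ → ℕ → ℕ} {q2 : ℕ → ℕ → ℕ}
    {W : ℕ → ℕ → ℕ} {l : ℕ → ℕ → ℕ → ℕ} {W2 : ℕ → ℕ} {l2 : ℕ → ℕ → ℕ}
    {LT : List ℕ} {TbT : List (ℕ × ℕ × ℕ)} (hs : s ≤ C)
    (hq4 : ∀ c i j, c < 16 → i < 64 → j < 64 → (q4 c i j : ℤ) =
      ∑ k ∈ range K, (W c k : ℤ) * ((l c i k : ℤ) - B) * ((l c j k : ℤ) - B) + O4)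
    (hq2 : ∀ i j, i < 16 → j < 16 → (q2 i j : ℤ) =
      ∑ k ∈ range K2, (W2 k : ℤ) * ((l2 i k : ℤ) - B) * ((l2 j k : ℤ) - B)
        + (O2 + t (kk i j)))
    (cs4 : sym4 q4 = true) (cs2 : sym2 q2 = true)
    (hc : ∀ b012 b013 b023 b123 b014 b024 b124 b034 b134 b234 : ℕ, Bt b012 → Bt b013 → Bt b023 →
      Bt b123 → Bt b014 → Bt b024 → Bt b124 → Bt b034 → Bt b134 → Bt b234 →
      tg b012 b013 b023 b123 b014 b024 b124 b034 b134 b234 = 4 →
      chkS q4 q2 C 0 s LT [] b012 b013 b023 b123 b014 b024 b124 b034 b134 b234 = true)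
    (iT : isoM LT TbT MT = true) :
    45 * T2 E t + (15 * O4 + 45 * O2) * (Fintype.card V : ℤ) ^ 6 + s * NT E ≤
      C * (Fintype.card V : ℤ) ^ 6 := by
  have iN : isoM [] [] [] = true := by decide +kernel
  have hb := boundX E hE K K2 0 1
    (fun a b c d e f => C + 0 * XL6 E [] a b c d e f + s * XL6 E MT a b c d e f - s)
    q4 W l q2 W2 l2 B O4 O2 t hq4 hq2
    (leafS_all hE hK hs iT iN cs4 cs2 hc)
  simp only [XL_eq] at hb
  have h1 : ∀ x : Fin 6 → V, ((C + 0 * XL E [] x + s * XL E MT x - s : ℕ) : ℤ) =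
      ((C : ℤ) - s) + (s : ℤ) * (XL E MT x : ℤ) := by
    intro x
    have h2 : s ≤ C + 0 * XL E [] x + s * XL E MT x := by
      rw [Nat.add_assoc]; exact hs.trans (Nat.le_add_right _ _)
    rw [Nat.cast_sub h2]
    push_cast
    ring
  simp only [h1] at hb
  rw [sum_add_distrib, ← mul_sum, sum_const, card_univ,
    Fintype.card_fun, Fintype.card_fin, nsmul_eq_mul] at hb
  have h3 : (∑ x : Fin 6 → V, (XL E MT x : ℤ)) + (NT E : ℤ) ≤ (Fintype.card V : ℤ) ^ 6 := by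
    have h4 : ∑ x : Fin 6 → V, XL E MT x =
        ((univ : Finset (Fin 6 → V)).filter fun x => RelL E MT x).card := by
      rw [card_filter]; rfl
    have h5 : ((univ : Finset (Fin 6 → V)).filter fun x => RelL E MT x).card + NT E ≤
        Fintype.card V ^ 6 := by
      unfold NT
      have h6 := Finset.card_filter_add_card_filter_not (s := (univ : Finset (Fin 6 → V)))
        (fun x => RelL E MT x)
      rw [card_univ, Fintype.card_fun, Fintype.card_fin] at h6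
      rw [← h6]
      refine Nat.add_le_add_left (card_le_card ?_) _
      intro x hx
      rw [mem_filter] at hx ⊢
      exact ⟨mem_univ _, fun h => hx.2 (TT_of_rel hE h)⟩
    rw [← h4] at h5
    exact_mod_cast h5
  have h6 : (0 : ℤ) ≤ (s : ℤ) := by positivity
  have h7 := mul_le_mul_of_nonneg_left h3 h6
  push_cast at hb
  linarith

/-- the functional of the codegrees and the six-tuples which do not follow the rule -/
theorem avg_slack [Fintype V] (hE : Sy E) (t : ℕ → ℤ) (A0 A1 A2 A3 A4 R : ℤ) (N : ℕ)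
    (h0 : t 0 = A0) (h1 : t 1 = A0 + A1) (h2 : t 2 = A0 + 2 * A1 + A2)
    (h3 : t 3 = A0 + 3 * A1 + 3 * A2 + A3) (h4 : t 4 = A0 + 4 * A1 + 6 * A2 + 4 * A3 + A4)
    (hb : 45 * T2 E t + N ≤ R * (Fintype.card V : ℤ) ^ 6) (u v k K : ℝ)
    (hpoly : ∀ d : ℝ, 45 * ((A0 : ℝ) + 4 * A1 * d + 6 * A2 * d ^ 2 + 4 * A3 * d ^ 3 + A4 * d ^ 4)
      = K * ph u v k d) (hR : (R : ℝ) = K * (5 / 9)) (hn : 0 < Fintype.card V) :
    K * ((Fintype.card V : ℝ) ^ 4 * ∑ a, ∑ b, ph u v k (dn E a b)) + N ≤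
      K * (5 / 9 * (Fintype.card V : ℝ) ^ 6) := by
  have hn' : (0 : ℝ) < (Fintype.card V : ℝ) := by exact_mod_cast hn
  have e1 : T2 E t = ∑ a, ∑ b, (A0 * (Fintype.card V : ℤ) ^ 4
      + 4 * A1 * (Fintype.card V : ℤ) ^ 3 * (∑ c, (E a b c : ℤ))
      + 6 * A2 * (Fintype.card V : ℤ) ^ 2 * (∑ c, (E a b c : ℤ)) ^ 2
      + 4 * A3 * (Fintype.card V : ℤ) * (∑ c, (E a b c : ℤ)) ^ 3 + A4 * (∑ c, (E a b c : ℤ)) ^ 4) := by
    unfold T2
    exact sum_congr rfl fun a _ => sum_congr rfl fun b _ =>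
      mom (E a b) (hE.b a b) t A0 A1 A2 A3 A4 h0 h1 h2 h3 h4
  rw [e1] at hb
  have hb' : (45 : ℝ) * ∑ a, ∑ b, ((A0 : ℝ) * (Fintype.card V : ℝ) ^ 4
      + 4 * A1 * (Fintype.card V : ℝ) ^ 3 * (∑ c, (E a b c : ℝ))
      + 6 * A2 * (Fintype.card V : ℝ) ^ 2 * (∑ c, (E a b c : ℝ)) ^ 2
      + 4 * A3 * (Fintype.card V : ℝ) * (∑ c, (E a b c : ℝ)) ^ 3 + A4 * (∑ c, (E a b c : ℝ)) ^ 4)
      + N ≤ R * (Fintype.card V : ℝ) ^ 6 := by exact_mod_cast hb
  have e2 : (45 : ℝ) * ∑ a, ∑ b, ((A0 : ℝ) * (Fintype.card V : ℝ) ^ 4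
      + 4 * A1 * (Fintype.card V : ℝ) ^ 3 * (∑ c, (E a b c : ℝ))
      + 6 * A2 * (Fintype.card V : ℝ) ^ 2 * (∑ c, (E a b c : ℝ)) ^ 2
      + 4 * A3 * (Fintype.card V : ℝ) * (∑ c, (E a b c : ℝ)) ^ 3 + A4 * (∑ c, (E a b c : ℝ)) ^ 4)
      = K * ((Fintype.card V : ℝ) ^ 4 * ∑ a, ∑ b, ph u v k (dn E a b)) := by
    rw [mul_sum, mul_sum, mul_sum]
    refine sum_congr rfl fun a _ => ?_
    rw [mul_sum, mul_sum, mul_sum]
    refine sum_congr rfl fun b _ => ?_
    have e3 : (∑ c, (E a b c : ℝ)) = dn E a b * (Fintype.card V : ℝ) := by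
      unfold dn
      field_simp
    rw [e3]
    have e4 := hpoly (dn E a b)
    calc _ = (Fintype.card V : ℝ) ^ 4 * (45 * ((A0 : ℝ) + 4 * A1 * dn E a b + 6 * A2 * dn E a b ^ 2
          + 4 * A3 * dn E a b ^ 3 + A4 * dn E a b ^ 4)) := by ring
      _ = _ := by rw [e4]; ring
  rw [e2, hR] at hb'
  calc _ ≤ _ := hb'
    _ = _ := by ring

/-- stability, in terms of functions: the colouring does not depend on the error term -/
theorem stabG [Fintype V] (hE : Sy E) (hK : NoK4 E) : ∃ g : V → Fin 3,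
    1000 * (Fintype.card V ^ 3 * ∑ a, ∑ b, ∑ c, E a b c) ≤ 550 * Fintype.card V ^ 6 ∨
      Fintype.card V ^ 3 * bad E g ≤ 645120 * NT E := by
  obtain ⟨g, hg⟩ := exists_col (E := E)
  refine ⟨g, ?_⟩
  have h1 := seeds_card hE hK
  rw [mul_assoc] at h1
  generalize (∑ a, ∑ b, ∑ c, E a b c) = S at h1 ⊢
  generalize bad E g = b at hg ⊢
  generalize (Seeds E).card = q at hg h1
  generalize NT E = N at hg ⊢
  generalize Fintype.card V = n at hg h1 ⊢
  by_cases hc : 1000 * (n ^ 3 * S) ≤ 550 * n ^ 6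
  · exact Or.inl hc
  · right
    push Not at hc
    rcases Nat.eq_zero_or_pos n with hn | hn
    · subst hn
      simp only [Nat.zero_pow (n := 3) (by norm_num), Nat.zero_pow (n := 6) (by norm_num), zero_mul, mul_zero, lt_irrefl] at hc
    have h3 : 5 * n ^ 6 < 460800 * (q * n) := by
      generalize n ^ 3 * S = Y at hc h1
      generalize n ^ 6 = W at hc h1 ⊢
      generalize q * n = Z at h1 ⊢
      omega
    have h4 : 5 * n ^ 5 ≤ 460800 * q := by
      have h5 : (5 * n ^ 5) * n ≤ (460800 * q) * n := by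
        calc (5 * n ^ 5) * n = 5 * n ^ 6 := by ring
          _ ≤ 460800 * (q * n) := h3.le
          _ = (460800 * q) * n := by ring
      exact Nat.le_of_mul_le_mul_right h5 hn
    have h7 : (5 * n ^ 5) * b ≤ 460800 * (7 * (N * n ^ 2)) := by
      calc (5 * n ^ 5) * b ≤ (460800 * q) * b := Nat.mul_le_mul_right _ h4
        _ = 460800 * (q * b) := by ring
        _ ≤ 460800 * (7 * (N * n ^ 2)) := Nat.mul_le_mul_left _ hg
    have h8 : (5 * n ^ 2) * (n ^ 3 * b) ≤ (5 * n ^ 2) * (645120 * N) := by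
      calc (5 * n ^ 2) * (n ^ 3 * b) = (5 * n ^ 5) * b := by ring
        _ ≤ 460800 * (7 * (N * n ^ 2)) := h7
        _ = (5 * n ^ 2) * (645120 * N) := by ring
    exact Nat.le_of_mul_le_mul_left h8 (by positivity)

end
end Pool.Agent.V1119.CG
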