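import Pool.Agent.V1119.CG.Gap
import Pool.Agent.TH773.ST.Tur

/-! Turán's construction has no codegrees in the gap. -/

set_option autoImplicit false
set_option maxRecDepth 100000
set_option maxHeartbeats 4000000
open Finset
open scoped Classical

namespace Pool.Agent.V1119.CG
open Pool.Agent.H122R2.N6 Pool.Agent.TH773.ST Pool.Agent.TH773

section
variable {n : ℕ}

theorem three_of_mem {g : Fin n → Fin 3} {x y z : Fin n}
    (h : ({x, y, z} : Finset (Fin n)) ∈ Turan34.turan g) : x ≠ y ∧ x ≠ z ∧ y ≠ z := by
  have h3 := turan_card h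
  refine ⟨?_, ?_, ?_⟩
  · rintro rfl
    have : ({x, x, z} : Finset (Fin n)).card ≤ 2 := by
      rw [insert_eq_of_mem (mem_insert_self _ _)]; exact card_le_two
    omega
  · rintro rfl
    have : ({x, y, x} : Finset (Fin n)).card ≤ 2 := by
      rw [insert_comm, insert_eq_of_mem (mem_singleton_self _)]; exact card_le_two
    omega
  · rintro rfl
    have : ({x, y, y} : Finset (Fin n)).card ≤ 2 := by
      rw [insert_eq_of_mem (mem_singleton_self y)]; exact card_le_two
    omega

theorem cod_comm (H : Finset (Finset (Fin n))) (x y : Fin n) : cod H x y = cod H y x := by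
  unfold cod
  congr 1
  ext z
  rw [mem_filter, mem_filter, insert_comm]

/-- the size of a part -/
noncomputable def pt (g : Fin n → Fin 3) (k : Fin 3) : Finset (Fin n) := univ.filter fun v => g v = k

theorem cod_same (g : Fin n → Fin 3) {x y : Fin n} (h : g x = g y) :
    cod (Turan34.turan g) x y ≤ (pt g (g x + 1)).card := by
  unfold cod
  refine card_le_card fun z hz => ?_
  have hz' := (mem_filter.mp hz).2
  obtain ⟨h1, h2, h3⟩ := three_of_mem hz'
  rw [mem_turan h1 h2 h3, ← h] at hz'
  refine mem_filter.mpr ⟨mem_univ _, ?_⟩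
  generalize g x = a at hz' ⊢
  generalize g z = b at hz' ⊢
  revert hz'
  revert a b
  decide

theorem cod_cross (g : Fin n → Fin 3) {x y : Fin n} (h : g y = g x + 1) :
    (pt g (g x + 2)).card + (pt g (g x)).card ≤ cod (Turan34.turan g) x y + 1 := by
  have hxy : x ≠ y := by
    rintro rfl
    revert h
    generalize g x = a
    revert a
    decide
  have h1 : (pt g (g x + 2)) ∪ ((pt g (g x)).erase x) ⊆
      univ.filter fun z => ({x, y, z} : Finset (Fin n)) ∈ Turan34.turan g := by
    intro z hz
    refine mem_filter.mpr ⟨mem_univ _, ?_⟩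
    rcases mem_union.mp hz with hz | hz
    · have hz' := (mem_filter.mp hz).2
      have hxz : x ≠ z := by
        rintro rfl
        revert hz'
        generalize g x = a
        revert a
        decide
      have hyz : y ≠ z := by
        rintro rfl
        rw [h] at hz'
        revert hz'
        generalize g x = a
        revert a
        decide
      rw [mem_turan hxy hxz hyz, h, hz']
      generalize g x = a
      revert a
      decide
    · obtain ⟨hzx, hz⟩ := mem_erase.mp hz
      have hz' := (mem_filter.mp hz).2
      have hyz : y ≠ z := by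
        rintro rfl
        rw [h] at hz'
        revert hz'
        generalize g x = a
        revert a
        decide
      rw [mem_turan hxy (Ne.symm hzx) hyz, h, hz']
      generalize g x = a
      revert a
      decide
  have h2 : Disjoint (pt g (g x + 2)) ((pt g (g x)).erase x) := by
    rw [Finset.disjoint_left]
    intro z hz hz2
    have h3 := (mem_filter.mp hz).2
    have h4 := (mem_filter.mp (mem_erase.mp hz2).2).2
    rw [h4] at h3
    revert h3
    generalize g x = a
    revert a
    decide
  have h3 := card_le_card h1
  have hx : x ∈ pt g (g x) := mem_filter.mpr ⟨mem_univ _, rfl⟩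
  rw [card_union_of_disjoint h2, card_erase_of_mem hx] at h3
  have h4 : 0 < (pt g (g x)).card := card_pos.mpr ⟨x, hx⟩
  unfold cod
  omega

theorem gap_turan (m : ℕ) (hm : 0 < m) (g : Fin (3 * m) → Fin 3)
    (hg : ∀ k, (pt g k).card = m) : gap (Turan34.turan g) (1 / (3 * (m : ℝ))) = 0 := by
  unfold gap
  rw [card_eq_zero, filter_eq_empty_iff]
  rintro ⟨x, y⟩ - ⟨h1, h2⟩
  simp only at h1 h2
  have hm' : (0 : ℝ) < (m : ℝ) := by exact_mod_cast hm
  have e1 : (1 / 3 + 1 / (3 * (m : ℝ))) * ((3 * m : ℕ) : ℝ) = m + 1 := by
    push_cast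
    field_simp
  have e2 : (2 / 3 - 1 / (3 * (m : ℝ))) * ((3 * m : ℕ) : ℝ) = 2 * m - 1 := by
    push_cast
    field_simp
  rw [e1] at h1
  rw [e2] at h2
  have h1' : m + 1 < cod (Turan34.turan g) x y := by exact_mod_cast h1
  have h2' : cod (Turan34.turan g) x y + 1 < 2 * m := by
    have : (cod (Turan34.turan g) x y : ℝ) + 1 < 2 * m := by linarith
    exact_mod_cast this
  have hc : g x = g y ∨ g y = g x + 1 ∨ g x = g y + 1 := by
    generalize g x = a
    generalize g y = b
    revert a b
    decide
  rcases hc with h | h | h
  · have := cod_same g h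
    rw [hg] at this
    omega
  · have := cod_cross g h
    rw [hg, hg] at this
    omega
  · have := cod_cross g h
    rw [hg, hg, cod_comm] at this
    omega

end
end Pool.Agent.V1119.CG
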